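import Mathlib

/-!
# Theorem M: quadratic extensions (abstract part)
-/

set_option autoImplicit false

namespace Pool.Agent.Helper82.M

open Module Polynomial

/-- The common kernel of independent forms has at most the expected dimension. -/
theorem not_li_of_ker {F V ι : Type*} [Field F] [AddCommGroup V] [Module F V]
    [FiniteDimensional F V] [Fintype ι] (φ : ι → V →ₗ[F] F) (hφ : LinearIndependent F φ)
    (hc : finrank F V ≤ Fintype.card ι + 2) (v : Fin 3 → V) (hv : ∀ i j, φ i (v j) = 0) :
    ¬ LinearIndependent F v := by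
  intro hli
  set S := Submodule.span F (Set.range v) with hS
  have hle : ∀ i, S ≤ LinearMap.ker (φ i) := by
    intro i
    rw [hS, Submodule.span_le]
    rintro _ ⟨j, rfl⟩
    exact hv i j
  have h1 : LinearIndependent F (fun i => S.liftQ (φ i) (hle i)) := by
    refine LinearIndependent.of_comp (S.mkQ.dualMap) ?_
    have : (S.mkQ.dualMap ∘ fun i => S.liftQ (φ i) (hle i)) = φ := by
      funext i
      exact S.liftQ_mkQ (φ i) (hle i)
    rw [this]
    exact hφ
  have h2 := h1.fintype_card_le_finrank
  have h3 : finrank F (V ⧸ S →ₗ[F] F) = finrank F (V ⧸ S) := Subspace.dual_finrank_eq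
  have h4 : finrank F S = 3 := by
    rw [hS, finrank_span_eq_card hli, Fintype.card_fin]
  have h5 := S.finrank_quotient_add_finrank
  omega

/-- A vector which is a combination of two vectors over `L` and satisfies a quadratic equation. -/
theorem quad {L E : Type*} [Field L] [Field E] [Algebra L E] {n : Type*} (x : n → E) (o : n)
    (hx : x o = 1) (hE : IntermediateField.adjoin L (Set.range x) = ⊤) (Y0 Y1 : n → L)
    (α β : E) (hY : ∀ i, x i = α * algebraMap L E (Y0 i) + β * algebraMap L E (Y1 i))
    (a b c : L) (habc : ¬ (a = 0 ∧ b = 0 ∧ c = 0))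
    (hq : algebraMap L E a * α ^ 2 + algebraMap L E b * (α * β) + algebraMap L E c * β ^ 2 = 0) :
    (⊥ : IntermediateField L E) = ⊤ ∨ (FiniteDimensional L E ∧ finrank L E ≤ 2) := by
  by_cases hα : α = 0
  · left
    rw [eq_top_iff, ← hE, IntermediateField.adjoin_le_iff]
    rintro _ ⟨i, rfl⟩
    have h0 := hY o
    rw [hx, hα, zero_mul, zero_add] at h0
    have hY1 : algebraMap L E (Y1 o) ≠ 0 := fun h => by
      rw [h, mul_zero] at h0
      exact one_ne_zero h0
    have hβ : β = algebraMap L E (Y1 o)⁻¹ := by
      rw [map_inv₀]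
      exact eq_inv_of_mul_eq_one_left h0.symm
    rw [SetLike.mem_coe, IntermediateField.mem_bot]
    refine ⟨(Y1 o)⁻¹ * Y1 i, ?_⟩
    rw [hY i, hα, hβ, map_mul]
    ring
  right
  set t := β / α with ht
  have hβ : β = t * α := by rw [ht, div_mul_cancel₀ _ hα]
  have htop : IntermediateField.adjoin L {t} = ⊤ := by
    rw [eq_top_iff, ← hE, IntermediateField.adjoin_le_iff]
    have htm : t ∈ IntermediateField.adjoin L {t} :=
      IntermediateField.mem_adjoin_simple_self L t
    have hinv : α⁻¹ ∈ IntermediateField.adjoin L {t} := by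
      have : α⁻¹ = algebraMap L E (Y0 o) + t * algebraMap L E (Y1 o) := by
        have h0 := hY o
        rw [hx, hβ] at h0
        field_simp
        linear_combination h0
      rw [this]
      exact add_mem (IntermediateField.algebraMap_mem _ _)
        (mul_mem htm (IntermediateField.algebraMap_mem _ _))
    have hαm : α ∈ IntermediateField.adjoin L {t} := by
      have := inv_mem hinv
      rwa [inv_inv] at this
    rintro _ ⟨i, rfl⟩
    rw [SetLike.mem_coe, hY i, hβ]
    exact add_mem (mul_mem hαm (IntermediateField.algebraMap_mem _ _))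
      (mul_mem (mul_mem htm hαm) (IntermediateField.algebraMap_mem _ _))
  set p : L[X] := C a + C b * X + C c * X ^ 2 with hp
  have hp0 : p ≠ 0 := by
    intro h
    refine habc ⟨?_, ?_, ?_⟩
    · have := congrArg (fun q => q.coeff 0) h
      simpa [hp, coeff_X, coeff_C] using this
    · have := congrArg (fun q => q.coeff 1) h
      simpa [hp, coeff_X, coeff_C, coeff_X_pow] using this
    · have := congrArg (fun q => q.coeff 2) h
      simpa [hp, coeff_X, coeff_C, coeff_X_pow] using this
  have hpt : aeval t p = 0 := by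
    have e : aeval t p = algebraMap L E a + algebraMap L E b * t + algebraMap L E c * t ^ 2 := by
      simp [hp]
    rw [e]
    have h2 : α ^ 2 ≠ 0 := pow_ne_zero 2 hα
    refine (mul_eq_zero.1 (?_ : α ^ 2 * _ = 0)).resolve_left h2
    rw [hβ] at hq
    linear_combination hq
  have hint : IsIntegral L t := isAlgebraic_iff_isIntegral.1 ⟨p, hp0, hpt⟩
  have hfin := IntermediateField.adjoin.finrank hint
  have hdeg : (minpoly L t).natDegree ≤ 2 :=
    (natDegree_le_of_dvd (minpoly.dvd L t hpt) hp0).trans (by rw [hp]; compute_degree)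
  have hfd := IntermediateField.adjoin.finiteDimensional hint
  rw [htop] at hfin hfd
  refine ⟨?_, ?_⟩
  · exact Module.Finite.equiv (IntermediateField.topEquiv (F := L) (E := E)).toLinearEquiv
  · rw [← (IntermediateField.topEquiv (F := L) (E := E)).toLinearEquiv.finrank_eq, hfin]
    exact hdeg

/-- The involution of an extension of degree at most two. -/
theorem exists_invol {L E : Type*} [Field L] [CharZero L] [Field E] [Algebra L E]
    [FiniteDimensional L E] (h : finrank L E ≤ 2) (h1 : (⊥ : IntermediateField L E) ≠ ⊤) :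
    ∃ σ : E ≃ₐ[L] E, (∀ φ, σ (σ φ) = φ) ∧
      ∀ φ, σ φ = φ → φ ∈ (⊥ : IntermediateField L E) := by
  have h2 : finrank L E = 2 := by
    have h0 : 0 < finrank L E := finrank_pos
    have h3 : finrank L E ≠ 1 := fun h3 => h1 (IntermediateField.bot_eq_top_iff_finrank_eq_one.2 h3)
    omega
  have hq : Algebra.IsQuadraticExtension L E := ⟨h2⟩
  have hg : IsGalois L E := inferInstance
  have hcard : Nat.card (E ≃ₐ[L] E) = 2 := by
    rw [IsGalois.card_aut_eq_finrank, h2]
  have hnt : Nontrivial (E ≃ₐ[L] E) := by
    rw [← Finite.one_lt_card_iff_nontrivial, hcard]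
    norm_num
  obtain ⟨σ, hσ⟩ := exists_ne (1 : E ≃ₐ[L] E)
  have hall : ∀ τ : E ≃ₐ[L] E, τ = 1 ∨ τ = σ := by
    intro τ
    classical
    by_contra hτ
    push Not at hτ
    have h3 : ({1, σ, τ} : Finset (E ≃ₐ[L] E)).card ≤ Nat.card (E ≃ₐ[L] E) := by
      rw [Nat.card_eq_fintype_card]
      exact Finset.card_le_univ _
    have m1 : (1 : E ≃ₐ[L] E) ∉ ({σ, τ} : Finset (E ≃ₐ[L] E)) := by
      rw [Finset.mem_insert, Finset.mem_singleton]
      rintro (h | h)
      · exact hσ h.symm
      · exact hτ.1 h.symm
    have m2 : σ ∉ ({τ} : Finset (E ≃ₐ[L] E)) := by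
      rw [Finset.mem_singleton]
      exact fun h => hτ.2 h.symm
    rw [hcard, Finset.card_insert_of_notMem m1, Finset.card_insert_of_notMem m2,
      Finset.card_singleton] at h3
    omega
  refine ⟨σ, fun φ => ?_, fun φ hφ => ?_⟩
  · rcases hall (σ * σ) with h4 | h4
    · exact congrArg (fun τ : E ≃ₐ[L] E => τ φ) h4
    · exact absurd (mul_eq_left.1 h4) hσ
  · rw [IsGalois.mem_bot_iff_fixed]
    intro τ
    rcases hall τ with h4 | h4
    · rw [h4]
      rfl
    · rw [h4]
      exact hφ

end Pool.Agent.Helper82.M
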