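import Mathlib
import Pool.Agent.Helper47.M.Defs
import Pool.Agent.Helper82.M.Quad
import Pool.Agent.Helper28.M.A

/-!
# Theorem M: the involutions
-/

set_option autoImplicit false

namespace Pool.Agent.Helper82.M

open Pool.Agent.Helper47.M Module
open Pool.Agent.Helper28.M.A (fv_map dv_map dv_add dv_smul fv_one fv_two tv_slot)

variable {k l : ℕ} {N : Fin k → ℕ} {d : Fin l → Fin k → ℕ}

/-- The derivative of a form which is linear in the factor. -/
theorem dv_one {e : Fin k → ℕ} {S : Type*} [CommRing S] (a : Tn N e → S) (x : Pt N S) (j : Fin k)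
    (h : e j = 1) (y b : Fin (N j + 1) → S) :
    dv a (Function.update x j y) j b = dv a x j b := by
  have hsub : Subsingleton (Fin (e j)) := by
    rw [h]
    infer_instance
  unfold dv
  refine Finset.sum_congr rfl fun t _ => ?_
  rw [tv_slot, tv_slot]
  refine Finset.sum_congr rfl fun m _ => ?_
  congr 2
  · refine Finset.prod_congr rfl fun t' _ => ?_
    rw [Subsingleton.elim t' t, Function.update_self, Function.update_self]
  · refine Finset.prod_congr rfl fun r hr => ?_
    rw [Function.update_of_ne (Finset.ne_of_mem_erase hr)]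

/-- The derivative in a factor as a linear map. -/
def lf {e : Fin k → ℕ} {S : Type*} [CommRing S] (a : Tn N e → S) (x : Pt N S) (j : Fin k) :
    (Fin (N j + 1) → S) →ₗ[S] S where
  toFun := dv a x j
  map_add' b b' := dv_add a x j b b'
  map_smul' u b := dv_smul a x j u b

/-- One form is quadratic. -/
theorem exists_two (h : Ty N d) (j : Fin k) (hj : N j = l) :
    ∃ i0, d i0 j = 2 ∧ ∀ i, i ≠ i0 → d i j = 1 := by
  have hs : ∑ i, (d i j - 1) = 1 := by
    have h1 : ∑ i, (d i j - 1 + 1) = N j + 1 := by
      rw [← h.sum j]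
      exact Finset.sum_congr rfl fun i _ => Nat.sub_add_cancel (h.pos i j)
    rw [Finset.sum_add_distrib] at h1
    simp only [Finset.sum_const, Finset.card_univ, Fintype.card_fin, smul_eq_mul, mul_one] at h1
    omega
  obtain ⟨i0, hi0⟩ : ∃ i0, d i0 j - 1 ≠ 0 := by
    by_contra hc
    push Not at hc
    rw [Finset.sum_eq_zero fun i _ => hc i] at hs
    exact absurd hs (by norm_num)
  have h2 := Fintype.sum_eq_add_sum_subtype_ne (fun i => d i j - 1) i0
  rw [hs] at h2
  have h3 : ∑ i : {i // i ≠ i0}, (d i.1 j - 1) = 0 := by omega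
  refine ⟨i0, by omega, fun i hi => ?_⟩
  have h4 := (Finset.sum_eq_zero_iff.1 h3) ⟨i, hi⟩ (Finset.mem_univ _)
  have h5 := h.pos i j
  simp only at h4
  omega

/-- Two independent vectors have a nonzero minor. -/
theorem exists_minor {L n : Type*} [Field L] (Y0 Y1 : n → L)
    (h : ∀ u w : L, (∀ i, u * Y0 i + w * Y1 i = 0) → u = 0 ∧ w = 0) :
    ∃ i j, Y0 i * Y1 j - Y0 j * Y1 i ≠ 0 := by
  by_contra hc
  push Not at hc
  obtain ⟨i, hi⟩ : ∃ i, Y0 i ≠ 0 := by
    by_contra h0
    push Not at h0
    have := (h 1 0 fun i => by rw [h0 i]; ring).1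
    exact one_ne_zero this
  have := (h (- Y1 i) (Y0 i) fun j => by linear_combination hc i j).2
  exact hi this

section

variable {K E : Type} [Field K] [Field E] [Algebra K E]

theorem mem_bf (x : Pt N E) (s j : Fin k) (hj : j ≠ s) (i : Fin (N j + 1)) :
    x j i ∈ Bf K x {s} :=
  IntermediateField.subset_adjoin K _ ⟨j, hj, i, rfl⟩

/-- The point with the coordinates of the factors other than `s`. -/
noncomputable def yL (K : Type) {E : Type} [Field K] [Field E] [Algebra K E] (x : Pt N E)
    (s : Fin k) : Pt N (Bf K x {s}) :=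
  fun j i => if hj : j = s then 0 else ⟨x j i, mem_bf x s j hj i⟩

theorem map_upd (x : Pt N E) (s : Fin k) (Y : Fin (N s + 1) → Bf K x {s}) :
    (fun j i => algebraMap (Bf K x {s}) E (Function.update (yL K x s) s Y j i)) =
      Function.update x s fun i => algebraMap (Bf K x {s}) E (Y i) := by
  funext j i
  by_cases hj : j = s
  · subst hj
    rw [Function.update_self, Function.update_self]
  · rw [Function.update_of_ne hj, Function.update_of_ne hj]
    simp only [yL, hj, dif_neg, not_false_iff]
    rfl

theorem adjoin_top (c : Tx N d → K) (x : Pt N E) (hx : FullPt K c x) (s : Fin k) :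
    IntermediateField.adjoin (Bf K x {s}) (Set.range (x s)) = ⊤ := by
  rw [eq_top_iff]
  intro φ _
  have h1 : φ ∈ Bf K x ∅ := by rw [hx.top]; exact IntermediateField.mem_top
  have h2 : Bf K x ∅ ≤ (IntermediateField.adjoin (Bf K x {s})
      (Set.range (x s))).restrictScalars K := by
    unfold Bf
    rw [IntermediateField.adjoin_le_iff]
    rintro _ ⟨j, -, i, rfl⟩
    rw [SetLike.mem_coe, IntermediateField.mem_restrictScalars]
    by_cases hj : j = s
    · subst hj
      exact IntermediateField.subset_adjoin _ _ ⟨i, rfl⟩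
    · exact IntermediateField.algebraMap_mem _ (⟨x j i, mem_bf x s j hj i⟩ : Bf K x {s})
  exact (IntermediateField.mem_restrictScalars K).1 (h2 h1)

/-- The involution which changes the factor `s`. -/
theorem exists_inv [CharZero K] (h : Ty N d) (c : Tx N d → K) (hc : AllNice K c) (x : Pt N E)
    (hx : FullPt K c x) (r : Fin k) (hr : N r = l + 1) (s : Fin k) (hs : N s = l) :
    Bf K x {s} = ⊤ ∨ ∃ σ : E ≃ₐ[K] E, (∀ j, j ≠ s → ∀ i, σ (x j i) = x j i) ∧
      (∀ φ, σ (σ φ) = φ) ∧ ∀ φ, σ φ = φ → φ ∈ Bf K x {s} := by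
  obtain ⟨i0, hi0, hi1⟩ := exists_two h s hs
  have hn := (hc r hr E x (hx.gen r)).1
  set L := Bf K x {s} with hL
  set cE : Tx N d → E := fun e => algebraMap K E (c e) with hcE
  set cL : Tx N d → L := fun e => algebraMap K L (c e) with hcL
  have hcLE : ∀ e, algebraMap L E (cL e) = cE e := fun e =>
    (IsScalarTower.algebraMap_apply K L E (c e)).symm
  set y : Pt N L := yL K x s with hy
  -- the linear forms over `E`
  set φ : {i : Fin l // i ≠ i0} → (Fin (N s + 1) → E) →ₗ[E] E :=
    fun i => lf (fun m => cE ⟨i.1, m⟩) x s with hφ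
  have hli : LinearIndependent E φ := by
    rw [Fintype.linearIndependent_iff]
    intro g hg i
    have h1 := hn.j2 s hs i0 hi0 (fun i => if hi : i ≠ i0 then g ⟨i, hi⟩ else 0)
      (by simp) (fun b => ?_)
    · have h2 := congrFun h1 i.1
      simpa [i.2] using h2
    · rw [Fintype.sum_eq_add_sum_subtype_ne _ i0]
      have h3 := congrArg (fun f : (Fin (N s + 1) → E) →ₗ[E] E => f b) hg
      simp only [LinearMap.sum_apply, LinearMap.smul_apply, LinearMap.zero_apply,
        smul_eq_mul] at h3
      rw [dif_neg (by simp), zero_mul, zero_add, ← h3]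
      refine Finset.sum_congr rfl fun j _ => ?_
      rw [dif_pos j.2]
      rfl
  -- the linear forms over `L`
  set ψ : {i : Fin l // i ≠ i0} → (Fin (N s + 1) → L) →ₗ[L] L :=
    fun i => lf (fun m => cL ⟨i.1, m⟩) y s with hψ
  have hφψ : ∀ i (Y : Fin (N s + 1) → L), φ i (fun e => algebraMap L E (Y e)) =
      algebraMap L E (ψ i Y) := by
    intro i Y
    have h1 := dv_map (algebraMap L E) (fun m => cL ⟨i.1, m⟩) y s Y
    have h2 := map_upd x s (y s)
    rw [Function.update_eq_self] at h2
    change dv (fun m => cE ⟨i.1, m⟩) x s (fun e => algebraMap L E (Y e)) =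
      algebraMap L E (dv (fun m => cL ⟨i.1, m⟩) y s Y)
    rw [h1, h2, dv_one _ x s (hi1 i.1 i.2)]
    simp only [hcLE]
  have hker : 2 ≤ finrank L (LinearMap.ker (LinearMap.pi ψ)) := by
    have h1 := LinearMap.finrank_range_add_finrank_ker (LinearMap.pi ψ)
    have h2 := (LinearMap.range (LinearMap.pi ψ)).finrank_le
    have h3 : Fintype.card {i : Fin l // i ≠ i0} + 1 = l := by
      have := Fintype.card_subtype_compl (fun i : Fin l => i = i0)
      rw [Fintype.card_fin, Fintype.card_subtype_eq] at this
      have hl : 0 < l := Fin.pos i0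
      simp only [ne_eq]
      omega
    rw [finrank_fintype_fun_eq_card] at h2
    rw [finrank_fintype_fun_eq_card, Fintype.card_fin] at h1
    omega
  obtain ⟨f, hf⟩ := exists_linearIndependent_of_le_finrank hker
  set Y0 : Fin (N s + 1) → L := (f 0).1 with hY0
  set Y1 : Fin (N s + 1) → L := (f 1).1 with hY1
  have hfk : ∀ a i, ψ i (f a).1 = 0 := by
    intro a i
    have := (f a).2
    rw [LinearMap.mem_ker] at this
    exact congrFun this i
  have hpair : ∀ u w : L, (∀ i, u * Y0 i + w * Y1 i = 0) → u = 0 ∧ w = 0 := by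
    intro u w huw
    have h1 := Fintype.linearIndependent_iff.1 hf ![u, w] ?_
    · exact ⟨h1 0, h1 1⟩
    · rw [Fin.sum_univ_two]
      refine Subtype.ext (funext fun i => ?_)
      exact huw i
  obtain ⟨i1, i2, hmin⟩ := exists_minor Y0 Y1 hpair
  set ι : L →+* E := algebraMap L E with hι
  have hpE : ∀ u w : E, (∀ i, u * ι (Y0 i) + w * ι (Y1 i) = 0) → u = 0 ∧ w = 0 := by
    intro u w huw
    have hm : ι (Y0 i1 * Y1 i2 - Y0 i2 * Y1 i1) ≠ 0 := fun h0 =>
      hmin ((map_eq_zero ι).1 h0)
    rw [map_sub, map_mul, map_mul] at hm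
    have e1 := huw i1
    have e2 := huw i2
    constructor
    · refine (mul_eq_zero.1 (?_ : u * _ = 0)).resolve_right hm
      linear_combination ι (Y1 i2) * e1 - ι (Y1 i1) * e2
    · refine (mul_eq_zero.1 (?_ : w * _ = 0)).resolve_right hm
      linear_combination ι (Y0 i1) * e2 - ι (Y0 i2) * e1
  -- the point in the span
  have hxs : ∀ i, φ i (x s) = 0 := by
    intro i
    change dv (fun m => cE ⟨i.1, m⟩) x s (x s) = 0
    rw [← fv_one _ x s (hi1 i.1 i.2), Function.update_eq_self]
    exact hx.eq i.1
  obtain ⟨α, β, hαβ⟩ : ∃ α β : E, ∀ i, x s i = α * ι (Y0 i) + β * ι (Y1 i) := by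
    have h1 := not_li_of_ker φ hli (by
      rw [finrank_fintype_fun_eq_card, Fintype.card_fin]
      have h3 : Fintype.card {i : Fin l // i ≠ i0} + 1 = l := by
        have := Fintype.card_subtype_compl (fun i : Fin l => i = i0)
        rw [Fintype.card_fin, Fintype.card_subtype_eq] at this
        have hl : 0 < l := Fin.pos i0
        simp only [ne_eq]
        omega
      omega) ![fun e => ι (Y0 e), fun e => ι (Y1 e), x s] (by
      intro i j
      fin_cases j
      · change φ i (fun e => ι (Y0 e)) = 0
        rw [hφψ, hfk, map_zero]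
      · change φ i (fun e => ι (Y1 e)) = 0
        rw [hφψ, hfk, map_zero]
      · exact hxs i)
    rw [Fintype.linearIndependent_iff] at h1
    push Not at h1
    obtain ⟨g, hg, i3, hi3⟩ := h1
    have hg' : ∀ e, g 0 * ι (Y0 e) + g 1 * ι (Y1 e) + g 2 * x s e = 0 := by
      intro e
      have := congrFun hg e
      rw [Fin.sum_univ_three] at this
      exact this
    have hg2 : g 2 ≠ 0 := by
      intro h0
      have h2 := hpE (g 0) (g 1) fun e => by
        have := hg' e
        rw [h0, zero_mul, add_zero] at this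
        exact this
      fin_cases i3
      · exact hi3 h2.1
      · exact hi3 h2.2
      · exact hi3 h0
    refine ⟨- g 0 / g 2, - g 1 / g 2, fun e => ?_⟩
    have := hg' e
    field_simp
    linear_combination this
  -- the quadratic form
  set aE : Tn N (d i0) → E := fun m => cE ⟨i0, m⟩ with haE
  set aL : Tn N (d i0) → L := fun m => cL ⟨i0, m⟩ with haL
  set Fq : (Fin (N s + 1) → E) → E := fun b => fv aE (Function.update x s b) with hFq
  set Dq : E := dv aE (Function.update x s fun e => ι (Y0 e)) s (fun e => ι (Y1 e)) with hDq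
  have hF2 : ∀ u w : E, Fq (fun e => u * ι (Y0 e) + w * ι (Y1 e)) =
      u ^ 2 * Fq (fun e => ι (Y0 e)) + u * w * Dq + w ^ 2 * Fq (fun e => ι (Y1 e)) := by
    intro u w
    have := fv_two aE (Function.update x s fun e => ι (Y0 e)) s hi0 u w (fun e => ι (Y1 e))
    rw [Function.update_self, Function.update_idem, Function.update_idem] at this
    exact this
  have hcoe : (fun m => ι (aL m)) = aE := funext fun m => hcLE _
  have hupd : ∀ Y : Fin (N s + 1) → L, (fun j i => ι (Function.update y s Y j i)) =
      Function.update x s fun e => ι (Y e) := fun Y => map_upd x s Y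
  have hA : ι (fv aL (Function.update y s Y0)) = Fq (fun e => ι (Y0 e)) := by
    rw [fv_map ι aL, hupd, hcoe]
  have hC : ι (fv aL (Function.update y s Y1)) = Fq (fun e => ι (Y1 e)) := by
    rw [fv_map ι aL, hupd, hcoe]
  have hB : ι (dv aL (Function.update y s Y0) s Y1) = Dq := by
    rw [dv_map ι aL, hupd, hcoe]
  have hx0 : x s = fun e => α * ι (Y0 e) + β * ι (Y1 e) := funext hαβ
  have hFx : Fq (x s) = 0 := by
    rw [hFq]
    simp only [Function.update_eq_self]
    exact hx.eq i0
  have hquad := quad (x s) 0 (hx.one s) (adjoin_top c x hx s) Y0 Y1 α β hαβ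
    (fv aL (Function.update y s Y0)) (dv aL (Function.update y s Y0) s Y1)
    (fv aL (Function.update y s Y1)) ?_ ?_
  · have htop : (⊥ : IntermediateField L E) = ⊤ → L = ⊤ := by
      intro hbt
      rw [eq_top_iff]
      intro φ' _
      have h1 : φ' ∈ (⊥ : IntermediateField L E) := by rw [hbt]; exact IntermediateField.mem_top
      obtain ⟨z, hz⟩ := IntermediateField.mem_bot.1 h1
      rw [← hz]
      exact z.2
    by_cases hbt : (⊥ : IntermediateField L E) = ⊤
    · exact Or.inl (htop hbt)
    right
    obtain ⟨hfd, hle⟩ := hquad.resolve_left hbt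
    have hch : CharZero L := charZero_of_injective_algebraMap (algebraMap K L).injective
    obtain ⟨σ, hσ1, hσ2⟩ := exists_invol hle hbt
    refine ⟨σ.restrictScalars K, fun j hj i => ?_, fun φ' => hσ1 φ', fun φ' hφ' => ?_⟩
    · exact σ.commutes ⟨x j i, mem_bf x s j hj i⟩
    · obtain ⟨z, hz⟩ := IntermediateField.mem_bot.1 (hσ2 φ' hφ')
      rw [← hz]
      exact z.2
  · rintro ⟨ha, hb, hc'⟩
    rw [ha, map_zero] at hA
    rw [hb, map_zero] at hB
    rw [hc', map_zero] at hC
    have hF0 : ∀ u w : E, Fq (fun e => u * ι (Y0 e) + w * ι (Y1 e)) = 0 := by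
      intro u w
      rw [hF2, ← hA, ← hB, ← hC]
      ring
    set z : Fin (N s + 1) → E := fun e => ι (Y1 0) * ι (Y0 e) + (- ι (Y0 0)) * ι (Y1 e) with hz
    have hz0 : z = 0 := by
      refine hn.j3 s hs i0 hi0 z ?_ ?_ (hF0 _ _)
      · rw [hz]
        ring
      · intro i
        by_cases hi : i = i0
        · subst hi
          have h1 := fv_two aE x s hi0 1 1 z
          have h2 : (fun e => 1 * x s e + 1 * z e) =
              fun e => (α + ι (Y1 0)) * ι (Y0 e) + (β + - ι (Y0 0)) * ι (Y1 e) := by
            funext e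
            rw [hαβ e, hz]
            ring
          have h3 : fv aE (Function.update x s fun e => 1 * x s e + 1 * z e) = 0 := by
            rw [h2]
            exact hF0 _ _
          have h4 : fv aE (Function.update x s z) = 0 := hF0 _ _
          have h5 : fv aE x = 0 := hx.eq i
          rw [h3, h4, h5] at h1
          change dv aE x s z = 0
          linear_combination -h1
        · have h1 := map_add (φ ⟨i, hi⟩) (ι (Y1 0) • fun e => ι (Y0 e))
            ((- ι (Y0 0)) • fun e => ι (Y1 e))
          rw [map_smul, map_smul, hφψ, hφψ, hfk, hfk, map_zero, smul_zero, smul_zero,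
            add_zero] at h1
          exact h1
    have h6 := hpE _ _ fun e => congrFun hz0 e
    have h7 := hαβ 0
    rw [hx.one s, h6.1, neg_eq_zero.1 h6.2, mul_zero, mul_zero, add_zero] at h7
    exact one_ne_zero h7
  · rw [hA, hB, hC]
    have := hF2 α β
    rw [← hx0, hFx] at this
    linear_combination -this

end

end Pool.Agent.Helper82.M
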